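import Pool.Agent.helper47.SC.Spec

/-!
# MP_0015b7, row VQQ: the sublevel sets of `V` and of the finite products
-/

set_option autoImplicit false

open scoped Topology ContDiff
open Set Filter Metric MeasureTheory
open Pool.Agent.helper90.KMMP (levi hess)

namespace Pool.Agent.SC

/-- the logarithm of the finite product -/
theorem VQQ_log (s : ℕ → C3) (m : ℕ → ℕ) (q : C4) (hpos : ∀ i, 0 < nsq (q.2 - s i)) (k : ℕ) :
    0 < QQ s m k q ∧ Real.log (QQ s m k q) = 1 / 2 * Real.log (1 + ‖q.1‖ ^ 2) +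
      (∑ i ∈ Finset.range k, eps m i / 2 * Real.log (nsq (q.2 - s i))) + 64 * nsq q.2 := by
  have h1 : (0 : ℝ) < 1 + ‖q.1‖ ^ 2 := by positivity
  have h2 : 0 < Real.sqrt (1 + ‖q.1‖ ^ 2) := Real.sqrt_pos.2 h1
  have h3 : ∀ i ∈ Finset.range k, 0 < (nsq (q.2 - s i)) ^ (eps m i / 2) :=
    fun i _ => Real.rpow_pos_of_pos (hpos i) _
  have h4 : 0 < ∏ i ∈ Finset.range k, (nsq (q.2 - s i)) ^ (eps m i / 2) := Finset.prod_pos h3
  have h5 := Real.exp_pos (64 * nsq q.2)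
  refine ⟨?_, ?_⟩
  · unfold QQ
    exact mul_pos (mul_pos h2 h4) h5
  · unfold QQ
    rw [Real.log_mul (mul_pos h2 h4).ne' h5.ne', Real.log_mul h2.ne' h4.ne', Real.log_exp,
      Real.log_sqrt h1.le, Real.log_prod (fun i hi => (h3 i hi).ne')]
    have h6 : ∑ i ∈ Finset.range k, Real.log ((nsq (q.2 - s i)) ^ (eps m i / 2)) =
        ∑ i ∈ Finset.range k, eps m i / 2 * Real.log (nsq (q.2 - s i)) :=
      Finset.sum_congr rfl fun i _ => Real.log_rpow (hpos i) _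
    rw [h6]
    ring

/-- Row VQQ (from WSM, NSQ) -/
theorem VQQ (h1 : WSM_stmt) (h2 : NSQ_stmt) : VQQ_stmt := by
  intro s D T m hD hm q hq
  obtain ⟨hq1, hq2⟩ := hq
  obtain ⟨_, _, hW⟩ := h1 s D T m hD hm
  obtain ⟨hT, hle⟩ := hW q.2 hq1 hq2
  have hz : ∀ s, nsq s = 0 ↔ s = 0 := h2.2.2.2.2.1
  have hnn : ∀ s, 0 ≤ nsq s := h2.2.2.2.2.2.1
  have hpos : ∀ i, 0 < nsq (q.2 - s i) := by
    intro i
    refine lt_of_le_of_ne (hnn _) (fun h => hq2 ?_)
    have h3 := (hz _).1 h.symm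
    rw [sub_eq_zero.1 h3]
    exact hD.mem i
  have hlog := VQQ_log s m q hpos
  have hiff : ∀ k, QQ s m k q < Real.exp 3 ↔ 1 / 2 * Real.log (1 + ‖q.1‖ ^ 2) +
      (∑ i ∈ Finset.range k, eps m i / 2 * Real.log (nsq (q.2 - s i))) + 64 * nsq q.2 - 3 < 0 := by
    intro k
    obtain ⟨h3, h4⟩ := hlog k
    rw [← Real.log_lt_iff_lt_exp h3, h4, sub_neg]
  constructor
  · intro hV
    have hlim : Tendsto (fun k => 1 / 2 * Real.log (1 + ‖q.1‖ ^ 2) +
        (∑ i ∈ Finset.range k, eps m i / 2 * Real.log (nsq (q.2 - s i))) + 64 * nsq q.2 - 3) atTop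
        (𝓝 (VV s m q)) := by
      unfold VV
      exact ((hT.const_add _).add_const _).sub_const _
    obtain ⟨k, hk⟩ := (hlim.eventually_lt_const hV).exists
    exact ⟨k, (hiff k).2 hk⟩
  · rintro ⟨k, hk⟩
    have h5 := (hiff k).1 hk
    have h6 := hle k
    unfold VV
    linarith

end Pool.Agent.SC
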